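import Pool.Agent.Helper47.ML3.Ten
import Pool.Agent.Helper84.ML3.Ineq
import Pool.Agent.Helper62.MT.Bridge

/-!
# The inner regime, and the theorem
-/

set_option autoImplicit false

namespace Pool.Agent.Helper47.ML3

open MeasureTheory Pool.Agent.Helper69.MD Set
open scoped ENNReal Pointwise

theorem inner_core (HB : Bridge) {K : Set E3} (hK : IsConvexBody K) (b : AffineBasis (Fin 4) ℝ E3)
    {x : ℝ} (hx : x ≤ 1 / 2) {β : Fin 4 → ℝ} (hβ : ∀ i, 0 ≤ β i) (hβx : ∑ i, β i ≤ x)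
    {d : Fin 4 → Fin 4 → ℝ} (d0 : ∀ i j, i ≠ j → 0 ≤ d i j)
    (dx : d 0 1 + d 0 2 + d 0 3 + d 1 2 + d 1 3 + d 2 3 ≤ 2 * x)
    (k1 : ∀ y ∈ K, ∀ i, b.coord i y ≤ 1) (k2 : ∀ y ∈ K, ∀ i, -β i ≤ b.coord i y)
    (k3 : ∀ y ∈ K, ∀ i j, i ≠ j → -b.coord i y - b.coord j y ≤ d i j)
    (h12 : d 0 2 + d 1 3 ≤ d 0 1 + d 2 3) (h13 : d 0 3 + d 1 2 ≤ d 0 1 + d 2 3)
    (hPQ : β 0 + β 1 ≤ β 2 + β 3) :
    volume K ≤ ENNReal.ofReal (10 / 3 * (1 + x)) * volume (convexHull ℝ (Set.range b)) *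
      deltaL K := by
  have a01 := d0 0 1 (by decide)
  have a02 := d0 0 2 (by decide)
  have a03 := d0 0 3 (by decide)
  have a12 := d0 1 2 (by decide)
  have a13 := d0 1 3 (by decide)
  have a23 := d0 2 3 (by decide)
  have b0 := hβ 0
  have b1 := hβ 1
  have b2 := hβ 2
  have b3 := hβ 3
  rw [Fin.sum_univ_four] at hβx
  obtain ⟨t, h, t0, t1, t2, t3, h1, hP, hQ, hD⟩ := Pool.Agent.Helper84.ML3.inner_ineq
    (x := x) (b1 := β 0) (b2 := β 1) (b3 := β 2) (b4 := β 3) (e1 := d 0 1 + d 2 3)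
    (e2 := d 0 2 + d 1 3) (e3 := d 0 3 + d 1 2) hx b0 b1 b2 b3 (by linarith) (by linarith)
    (by linarith) h12 h13 (by linarith) hPQ
  have hsum : ∀ y, b.coord 0 y + b.coord 1 y + b.coord 2 y + b.coord 3 y = 1 := fun y => by
    have := b.sum_coord_apply_eq_one y
    rwa [Fin.sum_univ_four] at this
  have ht : t ≤ d 0 2 + d 1 3 + (d 0 3 + d 1 2) := by
    rcases t3 with h | h | h
    · rw [h]
      linarith
    · linarith
    · linarith
  have hpos : 0 < 4 * (1 + (d 0 2 + d 1 3)) * (1 + (d 0 3 + d 1 2)) - t ^ 2 := by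
    have e1 : t ≤ 1 := by linarith
    have e2 : t ^ 2 ≤ 1 := by nlinarith
    nlinarith [mul_nonneg (add_nonneg a02 a13) (add_nonneg a03 a12)]
  have key := HB hK b (β := β) (e₁ := d 0 1 + d 2 3) (e₂ := d 0 2 + d 1 3) (e₃ := d 0 3 + d 1 2)
    (τ := t) (h := h) (by linarith) t0 t1 t2 t3 h1 hP hQ (mul_pos hpos (by linarith))
    (fun i p hp q hq => by
      have a := k1 p hp i
      have c := k2 q hq i
      linarith)
    (fun p hp q hq => by
      have a := k3 p hp 2 3 (by decide)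
      have c := k3 q hq 0 1 (by decide)
      have := hsum p
      linarith)
    (fun p hp q hq => by
      have a := k3 p hp 1 3 (by decide)
      have c := k3 q hq 0 2 (by decide)
      have := hsum p
      linarith)
    (fun p hp q hq => by
      have a := k3 p hp 1 2 (by decide)
      have c := k3 q hq 0 3 (by decide)
      have := hsum p
      linarith)
  have hfin : 3 / 8 * ((4 * (1 + (d 0 2 + d 1 3)) * (1 + (d 0 3 + d 1 2)) - t ^ 2) * h) ≤
      10 / 3 * (1 + x) := by linarith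
  exact key.trans (mul_le_mul_left (mul_le_mul_left (ENNReal.ofReal_le_ofReal hfin) _) _)

theorem inner_perm (HB : Bridge) {K : Set E3} (hK : IsConvexBody K) (b : AffineBasis (Fin 4) ℝ E3)
    {x : ℝ} (hx : x ≤ 1 / 2) {β : Fin 4 → ℝ} (hβ : ∀ i, 0 ≤ β i) (hβx : ∑ i, β i ≤ x)
    {d : Fin 4 → Fin 4 → ℝ} (d0 : ∀ i j, i ≠ j → 0 ≤ d i j)
    (k1 : ∀ y ∈ K, ∀ i, b.coord i y ≤ 1) (k2 : ∀ y ∈ K, ∀ i, -β i ≤ b.coord i y)
    (k3 : ∀ y ∈ K, ∀ i j, i ≠ j → -b.coord i y - b.coord j y ≤ d i j)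
    (σ : Equiv.Perm (Fin 4))
    (dx : d (σ 0) (σ 1) + d (σ 0) (σ 2) + d (σ 0) (σ 3) + d (σ 1) (σ 2) + d (σ 1) (σ 3) +
      d (σ 2) (σ 3) ≤ 2 * x)
    (h12 : d (σ 0) (σ 2) + d (σ 1) (σ 3) ≤ d (σ 0) (σ 1) + d (σ 2) (σ 3))
    (h13 : d (σ 0) (σ 3) + d (σ 1) (σ 2) ≤ d (σ 0) (σ 1) + d (σ 2) (σ 3))
    (hPQ : β (σ 0) + β (σ 1) ≤ β (σ 2) + β (σ 3)) :
    volume K ≤ ENNReal.ofReal (10 / 3 * (1 + x)) * volume (convexHull ℝ (Set.range b)) *
      deltaL K := by
  have hc : ∀ i x, (b.reindex σ.symm).coord i x = b.coord (σ i) x := fun i x => by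
    rw [AffineBasis.coord_reindex]
    simp
  have e : ∑ i, β (σ i) = ∑ i, β i := Equiv.sum_comp σ β
  have key := inner_core HB hK (b.reindex σ.symm) (β := fun i => β (σ i))
    (d := fun i j => d (σ i) (σ j)) hx (fun i => hβ _) (by rw [e]; exact hβx)
    (fun i j hij => d0 _ _ (σ.injective.ne hij)) dx (fun y hy i => by rw [hc]; exact k1 y hy _)
    (fun y hy i => by rw [hc]; exact k2 y hy _)
    (fun y hy i j hij => by rw [hc, hc]; exact k3 y hy _ _ (σ.injective.ne hij)) h12 h13 hPQ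
  rw [range_reindex] at key
  exact key

theorem inner_of_bridge (HB : Bridge) : Inner := by
  intro K hK b x hx β hβ hβx d ds d0 dx k1 k2 k3
  have main : ∀ σ : Equiv.Perm (Fin 4),
      d (σ 0) (σ 1) + d (σ 0) (σ 2) + d (σ 0) (σ 3) + d (σ 1) (σ 2) + d (σ 1) (σ 3) +
        d (σ 2) (σ 3) ≤ 2 * x →
      d (σ 0) (σ 2) + d (σ 1) (σ 3) ≤ d (σ 0) (σ 1) + d (σ 2) (σ 3) →
      d (σ 0) (σ 3) + d (σ 1) (σ 2) ≤ d (σ 0) (σ 1) + d (σ 2) (σ 3) →
      volume K ≤ ENNReal.ofReal (10 / 3 * (1 + x)) * volume (convexHull ℝ (Set.range b)) *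
        deltaL K := by
    intro σ h1 h2 h3
    rcases le_total (β (σ 0) + β (σ 1)) (β (σ 2) + β (σ 3)) with h | h
    · exact inner_perm HB hK b hx hβ hβx d0 k1 k2 k3 σ h1 h2 h3 h
    · have e0 : ((Equiv.swap 0 2 * Equiv.swap 1 3 : Equiv.Perm (Fin 4)).trans σ) 0 = σ 2 := by
        simp [Equiv.swap_apply_of_ne_of_ne]
      have e1 : ((Equiv.swap 0 2 * Equiv.swap 1 3 : Equiv.Perm (Fin 4)).trans σ) 1 = σ 3 := by
        simp [Equiv.swap_apply_of_ne_of_ne]
      have e2 : ((Equiv.swap 0 2 * Equiv.swap 1 3 : Equiv.Perm (Fin 4)).trans σ) 2 = σ 0 := by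
        simp [Equiv.swap_apply_of_ne_of_ne]
      have e3 : ((Equiv.swap 0 2 * Equiv.swap 1 3 : Equiv.Perm (Fin 4)).trans σ) 3 = σ 1 := by
        simp [Equiv.swap_apply_of_ne_of_ne]
      refine inner_perm HB hK b hx hβ hβx d0 k1 k2 k3
        ((Equiv.swap 0 2 * Equiv.swap 1 3 : Equiv.Perm (Fin 4)).trans σ) ?_ ?_ ?_ ?_
      all_goals rw [e0, e1, e2, e3]
      · have s1 := ds (σ 2) (σ 0)
        have s2 := ds (σ 2) (σ 1)
        have s3 := ds (σ 3) (σ 0)
        have s4 := ds (σ 3) (σ 1)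
        linarith
      · have s1 := ds (σ 2) (σ 0)
        have s4 := ds (σ 3) (σ 1)
        linarith
      · have s2 := ds (σ 2) (σ 1)
        have s3 := ds (σ 3) (σ 0)
        linarith
      · exact h
  have s1 := ds 1 2
  have s2 := ds 2 1
  have s3 := ds 3 1
  have s4 := ds 3 2
  have s5 := ds 1 3
  by_cases h1 : d 0 2 + d 1 3 ≤ d 0 1 + d 2 3
  · by_cases h2 : d 0 3 + d 1 2 ≤ d 0 1 + d 2 3
    · exact main 1 dx h1 h2
    · push Not at h2
      refine main (Equiv.swap 1 3) ?_ ?_ ?_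
      all_goals
        simp only [Equiv.swap_apply_left, Equiv.swap_apply_right]
        rw [Equiv.swap_apply_of_ne_of_ne (by decide) (by decide),
          Equiv.swap_apply_of_ne_of_ne (by decide) (by decide)]
        linarith
  · push Not at h1
    by_cases h2 : d 0 3 + d 1 2 ≤ d 0 2 + d 1 3
    · refine main (Equiv.swap 1 2) ?_ ?_ ?_
      all_goals
        simp only [Equiv.swap_apply_left, Equiv.swap_apply_right]
        rw [Equiv.swap_apply_of_ne_of_ne (by decide) (by decide),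
          Equiv.swap_apply_of_ne_of_ne (by decide) (by decide)]
        linarith
    · push Not at h2
      refine main (Equiv.swap 1 3) ?_ ?_ ?_
      all_goals
        simp only [Equiv.swap_apply_left, Equiv.swap_apply_right]
        rw [Equiv.swap_apply_of_ne_of_ne (by decide) (by decide),
          Equiv.swap_apply_of_ne_of_ne (by decide) (by decide)]
        linarith

/-- Every convex body has a lattice packing of density at least `3/10`. -/
theorem ten3 {K : Set E3} (hK : IsConvexBody K) : ENNReal.ofReal (3 / 10) ≤ deltaL K :=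
  have HB : Bridge := fun hK b _ _ _ _ _ _ he h0 h2 h3 ht h1 hP hQ hD w w1 w2 w3 =>
    Pool.Agent.Helper62.MT.bridge hK b he h0 h2 h3 ht h1 hP hQ hD w w1 w2 w3
  ten3_of HB (inner_of_bridge HB) hK

end Pool.Agent.Helper47.ML3
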