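import Pool.Agent.Helper69.MD.Defs

/-!
# `δ_L(K) ≥ 3/10`: coordinates of a simplex and the statements of the blocks
-/

set_option autoImplicit false

namespace Pool.Agent.Helper47.ML3

open MeasureTheory Pool.Agent.Helper69.MD
open scoped ENNReal Pointwise

/-- Affine coordinates `lam` of the simplex with the vertices `t`. -/
structure Fr (lam : Fin 4 → E3 → ℝ) (t : Fin 4 → E3) : Prop where
  aff : ∀ i, ∃ (u : E3) (c : ℝ), ∀ x, lam i x = c + inner ℝ u x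
  diag : ∀ i j, lam j (t i) = if i = j then 1 else 0
  sum : ∀ x, ∑ i, lam i x = 1

/-- The simplex. -/
def tet (lam : Fin 4 → E3 → ℝ) : Set E3 := {x | ∀ i, 0 ≤ lam i x}

/-- (4), helper4. -/
def HHelly : Prop := ∀ {K : Set E3}, IsConvexBody K → ∀ {s : ℝ}, 0 < s →
  (¬ ∃ x, ∀ y ∈ K, x - y ∈ s • K) →
  ∃ (u : Fin 4 → E3) (c : Fin 4 → ℝ) (p : Fin 4 → E3), (∀ i, p i ∈ K) ∧
    (∀ x, ∑ i, (c i + inner ℝ (u i) x) = 1) ∧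
    (∀ i, ∀ x ∈ K, 0 ≤ c i + inner ℝ (u i) x ∧
      c i + inner ℝ (u i) x ≤ c i + inner ℝ (u i) (p i)) ∧
    1 + s < ∑ i, (c i + inner ℝ (u i) (p i))

/-- (5), helper4: the determinant. -/
def HDet : Prop := ∀ {M : Matrix (Fin 4) (Fin 4) ℝ}, (∀ i j, 0 ≤ M i j) → (∀ i, ∑ j, M i j = 1) →
  ∑ i, (1 - M i i) ≤ 1 →
  (1 - (1 - M 0 0) - (1 - M 1 1)) * (1 - (1 - M 2 2) - (1 - M 3 3)) ≤ M.det ∨
  (1 - (1 - M 0 0) - (1 - M 2 2)) * (1 - (1 - M 1 1) - (1 - M 3 3)) ≤ M.det ∨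
  (1 - (1 - M 0 0) - (1 - M 3 3)) * (1 - (1 - M 1 1) - (1 - M 2 2)) ≤ M.det

/-- (5), helper62: affine functions with a nonzero determinant are the coordinates of a simplex,
and the volume of the convex hull of `p` is at least the determinant times its volume. -/
def HVol : Prop := ∀ {lam : Fin 4 → E3 → ℝ} {p : Fin 4 → E3},
  (∀ i, ∃ (u : E3) (c : ℝ), ∀ x, lam i x = c + inner ℝ u x) → (∀ x, ∑ i, lam i x = 1) →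
  0 < Matrix.det (Matrix.of fun i j => lam j (p i)) →
  (∃ t : Fin 4 → E3, Fr lam t) ∧
  ENNReal.ofReal (Matrix.det (Matrix.of fun i j => lam j (p i))) * volume (tet lam) ≤
    volume (convexHull ℝ (Set.range p))

/-- (7a-0), helper95 / helper46: the largest simplex. -/
def HLargest : Prop := ∀ {K : Set E3}, IsConvexBody K →
  ∃ (lam : Fin 4 → E3 → ℝ) (t : Fin 4 → E3), Fr lam t ∧ (∀ i, t i ∈ K) ∧
    (∀ x ∈ K, ∀ i, lam i x ≤ 1) ∧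
    ∀ p : Fin 4 → E3, (∀ i, p i ∈ K) → volume (convexHull ℝ (Set.range p)) ≤ volume (tet lam)

/-- (7a) sigma, helper33. -/
def HSigma : Prop := ∀ {K : Set E3}, Convex ℝ K → ∀ {lam : Fin 4 → E3 → ℝ} {t z : Fin 4 → E3},
  Fr lam t → (∀ i, t i ∈ K) → (∀ i, z i ∈ K) → (∀ i, ∀ x ∈ K, lam i (z i) ≤ lam i x) →
  ENNReal.ofReal (1 + ∑ i, -lam i (z i)) * volume (tet lam) ≤ volume K

/-- (7a) edges, helper33. -/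
def HCaps : Prop := ∀ {K : Set E3}, Convex ℝ K → ∀ {lam : Fin 4 → E3 → ℝ} {t : Fin 4 → E3},
  Fr lam t → (∀ i, t i ∈ K) → (∀ x ∈ K, ∀ i, lam i x ≤ 1) → (∀ x ∈ K, ∀ i, -(1 / 2) ≤ lam i x) →
  ∀ {d : Fin 4 → Fin 4 → ℝ}, (∀ i j, d i j = d j i) → (∀ i j, i ≠ j → 0 ≤ d i j) →
  (∀ k l, k ≠ l → ∃ z ∈ K, -lam k z - lam l z = d k l) →
  ENNReal.ofReal (1 + (d 0 1 + d 0 2 + d 0 3 + d 1 2 + d 1 3 + d 2 3) / 2) * volume (tet lam) ≤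
    volume K

/-- The bridge, helper19: the lattice of `Helper84.ML3.adm`. -/
def HBridge : Prop := ∀ {K : Set E3}, IsConvexBody K → ∀ {lam : Fin 4 → E3 → ℝ} {t : Fin 4 → E3},
  Fr lam t → ∀ {b : Fin 4 → ℝ} {e₁ e₂ e₃ τ h : ℝ}, -1 ≤ e₁ → 0 ≤ τ → τ ≤ 2 * (1 + e₂) →
  τ ≤ 2 * (1 + e₃) → (τ = 0 ∨ τ ≤ e₂ + e₃ - 2 * b 0 ∨ τ ≤ e₂ + e₃ - 2 * b 1) → 1 + e₁ ≤ h →
  2 - (e₂ + e₃) + τ + 2 * (b 0 + b 1) ≤ h → 2 - (e₂ + e₃) - τ + 2 * (b 2 + b 3) ≤ h →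
  0 < (4 * (1 + e₂) * (1 + e₃) - τ ^ 2) * h →
  (∀ i, ∀ p ∈ K, ∀ q ∈ K, lam i p - lam i q ≤ 1 + b i) →
  (∀ p ∈ K, ∀ q ∈ K, lam 0 p + lam 1 p - (lam 0 q + lam 1 q) ≤ 1 + e₁) →
  (∀ p ∈ K, ∀ q ∈ K, lam 0 p + lam 2 p - (lam 0 q + lam 2 q) ≤ 1 + e₂) →
  (∀ p ∈ K, ∀ q ∈ K, lam 0 p + lam 3 p - (lam 0 q + lam 3 q) ≤ 1 + e₃) →
  volume K ≤ ENNReal.ofReal (3 / 8 * ((4 * (1 + e₂) * (1 + e₃) - τ ^ 2) * h)) *
    volume (tet lam) * deltaL K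

/-- (7c), helper84: the inner regime. -/
def HInner : Prop := ∀ {K : Set E3}, IsConvexBody K → ∀ {lam : Fin 4 → E3 → ℝ} {t : Fin 4 → E3},
  Fr lam t → (∀ x ∈ K, ∀ i, lam i x ≤ 1) → ∀ {x : ℝ}, x ≤ 1 / 2 →
  ∀ {b : Fin 4 → ℝ}, (∀ i, 0 ≤ b i) → ∑ i, b i ≤ x → (∀ y ∈ K, ∀ i, -b i ≤ lam i y) →
  ∀ {d : Fin 4 → Fin 4 → ℝ}, (∀ i j, d i j = d j i) → (∀ i j, i ≠ j → 0 ≤ d i j) →
  (∀ k l, k ≠ l → ∀ y ∈ K, -lam k y - lam l y ≤ d k l) →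
  d 0 1 + d 0 2 + d 0 3 + d 1 2 + d 1 3 + d 2 3 ≤ 2 * x →
  volume K ≤ ENNReal.ofReal (10 / 3 * (1 + x)) * volume (tet lam) * deltaL K

end Pool.Agent.Helper47.ML3
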