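import Pool.Agent.Helper37.SY.Main
import Pool.Agent.Helper33.RS.Final
import Pool.Agent.Helper62.MT.Frame
import Pool.Agent.Helper95.ML.Simplex
import Pool.Agent.Helper33.CP.Caps

/-!
# `δ_L(K) ≥ 3/10`: the case distinction
-/

set_option autoImplicit false
set_option linter.unusedVariables false

namespace Pool.Agent.Helper47.ML3

open MeasureTheory Pool.Agent.Helper69.MD Set
open scoped ENNReal Pointwise

/-- The lattice of `Helper84.ML3.adm` in barycentric coordinates. -/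
def Bridge : Prop := ∀ {K : Set E3}, IsConvexBody K → ∀ (b : AffineBasis (Fin 4) ℝ E3)
  {β : Fin 4 → ℝ} {e₁ e₂ e₃ τ h : ℝ}, -1 ≤ e₁ → 0 ≤ τ → τ ≤ 2 * (1 + e₂) →
  τ ≤ 2 * (1 + e₃) → (τ = 0 ∨ τ ≤ e₂ + e₃ - 2 * β 0 ∨ τ ≤ e₂ + e₃ - 2 * β 1) → 1 + e₁ ≤ h →
  2 - (e₂ + e₃) + τ + 2 * (β 0 + β 1) ≤ h → 2 - (e₂ + e₃) - τ + 2 * (β 2 + β 3) ≤ h →
  0 < (4 * (1 + e₂) * (1 + e₃) - τ ^ 2) * h →
  (∀ i, ∀ p ∈ K, ∀ q ∈ K, b.coord i p - b.coord i q ≤ 1 + β i) →
  (∀ p ∈ K, ∀ q ∈ K, b.coord 0 p + b.coord 1 p - (b.coord 0 q + b.coord 1 q) ≤ 1 + e₁) →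
  (∀ p ∈ K, ∀ q ∈ K, b.coord 0 p + b.coord 2 p - (b.coord 0 q + b.coord 2 q) ≤ 1 + e₂) →
  (∀ p ∈ K, ∀ q ∈ K, b.coord 0 p + b.coord 3 p - (b.coord 0 q + b.coord 3 q) ≤ 1 + e₃) →
  volume K ≤ ENNReal.ofReal (3 / 8 * ((4 * (1 + e₂) * (1 + e₃) - τ ^ 2) * h)) *
    volume (convexHull ℝ (Set.range b)) * deltaL K

/-- The inner regime. -/
def Inner : Prop := ∀ {K : Set E3}, IsConvexBody K → ∀ (b : AffineBasis (Fin 4) ℝ E3) {x : ℝ},
  x ≤ 1 / 2 → ∀ {β : Fin 4 → ℝ}, (∀ i, 0 ≤ β i) → ∑ i, β i ≤ x →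
  ∀ {d : Fin 4 → Fin 4 → ℝ}, (∀ i j, d i j = d j i) → (∀ i j, i ≠ j → 0 ≤ d i j) →
  d 0 1 + d 0 2 + d 0 3 + d 1 2 + d 1 3 + d 2 3 ≤ 2 * x →
  (∀ y ∈ K, ∀ i, b.coord i y ≤ 1) → (∀ y ∈ K, ∀ i, -β i ≤ b.coord i y) →
  (∀ y ∈ K, ∀ i j, i ≠ j → -b.coord i y - b.coord j y ≤ d i j) →
  volume K ≤ ENNReal.ofReal (10 / 3 * (1 + x)) * volume (convexHull ℝ (Set.range b)) * deltaL K

/-! ## Extended reals -/

theorem glue {v s δ : ℝ≥0∞} (hs0 : s ≠ 0) (hs1 : s ≠ ⊤) {a b : ℝ} (ha : 0 < a)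
    (hab : 3 / 10 * a ≤ b) (h1 : v ≤ ENNReal.ofReal a * s * δ) (h2 : ENNReal.ofReal b * s ≤ v) :
    ENNReal.ofReal (3 / 10) ≤ δ := by
  have h3 : ENNReal.ofReal (3 / 10 * a) * s ≤ ENNReal.ofReal a * s * δ :=
    (mul_le_mul_left (ENNReal.ofReal_le_ofReal hab) s).trans (h2.trans h1)
  rw [ENNReal.ofReal_mul (by norm_num), mul_comm (ENNReal.ofReal (3 / 10)), mul_assoc, mul_assoc,
    mul_comm s δ, ← mul_assoc, ← mul_assoc] at h3
  rw [ENNReal.mul_le_mul_iff_left hs0 hs1, ENNReal.mul_le_mul_iff_right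
    (by simpa using ha) ENNReal.ofReal_ne_top] at h3
  exact h3

/-! ## Moderate asymmetry -/

theorem caseA {K : Set E3} (hK : IsConvexBody K) {x : E3}
    (h : ∀ y ∈ K, x - y ∈ (301 / 125 : ℝ) • K) : ENNReal.ofReal (3 / 10) ≤ deltaL K := by
  have h1 := Pool.Agent.Helper33.RS.diff_vol hK (by norm_num) h
  have h2 := Pool.Agent.Helper37.SY.main hK
  have h3 := Pool.Agent.Helper37.SY.volume_half (K - K)
  have h0 := Pool.Agent.Helper37.SY.vol_half_pos hK
  have ht := Pool.Agent.Helper37.SY.vol_half_fin hK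
  have hf : volume K ≠ ⊤ := hK.isCompact.measure_lt_top.ne
  have hp : volume K ≠ 0 :=
    (Measure.measure_pos_of_nonempty_interior volume hK.interior_nonempty).ne'
  set W := volume ((1 / 2 : ℝ) • (K - K)) with hW
  have h4 : W ≤ ENNReal.ofReal (257 / 125) * volume K := by
    have h5 : (8 : ℝ≥0∞) * W ≤ 8 * (ENNReal.ofReal (257 / 125) * volume K) := by
      rw [← h3, ← mul_assoc, show (8 : ℝ≥0∞) * ENNReal.ofReal (257 / 125) =
        ENNReal.ofReal (2 + 6 * (301 / 125)) by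
          rw [show (8 : ℝ≥0∞) = ENNReal.ofReal 8 by simp, ← ENNReal.ofReal_mul (by norm_num)]
          norm_num]
      exact h1
    exact (ENNReal.mul_le_mul_iff_right (by norm_num) (by norm_num)).1 h5
  refine le_trans ?_ h2
  rw [← mul_div_assoc, ENNReal.le_div_iff_mul_le (Or.inl h0) (Or.inl ht)]
  calc ENNReal.ofReal (3 / 10) * W ≤
      ENNReal.ofReal (3 / 10) * (ENNReal.ofReal (257 / 125) * volume K) := by gcongr
    _ = ENNReal.ofReal (3 / 10 * (257 / 125)) * volume K := by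
      rw [ENNReal.ofReal_mul (by norm_num), mul_assoc]
    _ ≤ ENNReal.ofReal (Real.pi ^ 2 / 16) * volume K := by
      gcongr
      have := Real.pi_gt_d6
      nlinarith

/-! ## The outer regime -/

section outer

variable {K : Set E3}

theorem outer_core (HB : Bridge) (hK : IsConvexBody K) (b : AffineBasis (Fin 4) ℝ E3)
    {m : Fin 4 → ℝ} (hm : ∀ i, m i ≤ 1) (hs : 3 ≤ ∑ i, m i)
    (h0 : ∀ x ∈ K, ∀ i, 0 ≤ b.coord i x) (h1 : ∀ x ∈ K, ∀ i, b.coord i x ≤ m i)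
    (ho : m 0 + m 1 ≤ m 2 + m 3) :
    volume K ≤ ENNReal.ofReal (3 / 8 * ((4 - (m 2 + m 3 - m 0 - m 1) ^ 2) * (∑ i, m i - 2))) *
      volume (convexHull ℝ (Set.range b)) * deltaL K := by
  have hm0 := hm 0
  have hm1 := hm 1
  have hm2 := hm 2
  have hm3 := hm 3
  rw [Fin.sum_univ_four] at hs ⊢
  have hsum : ∀ x, b.coord 0 x + b.coord 1 x + b.coord 2 x + b.coord 3 x = 1 := fun x => by
    have := b.sum_coord_apply_eq_one x
    rwa [Fin.sum_univ_four] at this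
  have key := HB hK b (β := fun i => m i - 1) (e₁ := 0) (e₂ := 0) (e₃ := 0)
    (τ := m 2 + m 3 - m 0 - m 1) (h := m 0 + m 1 + m 2 + m 3 - 2) (by norm_num) (by linarith)
    (by linarith) (by linarith) (Or.inr (by
      by_cases h : m 0 ≤ m 1
      · left
        linarith
      · right
        linarith)) (by linarith) (by linarith) (by linarith)
    (mul_pos (by nlinarith) (by linarith))
    (fun i p hp q hq => by
      have a := h1 p hp i
      have c := h0 q hq i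
      linarith)
    (fun p hp q hq => by
      have := hsum p
      have a2 := h0 p hp 2
      have a3 := h0 p hp 3
      have c0 := h0 q hq 0
      have c1 := h0 q hq 1
      linarith)
    (fun p hp q hq => by
      have := hsum p
      have a2 := h0 p hp 1
      have a3 := h0 p hp 3
      have c0 := h0 q hq 0
      have c1 := h0 q hq 2
      linarith)
    (fun p hp q hq => by
      have := hsum p
      have a2 := h0 p hp 1
      have a3 := h0 p hp 2
      have c0 := h0 q hq 0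
      have c1 := h0 q hq 3
      linarith)
  simpa using key

theorem range_reindex (b : AffineBasis (Fin 4) ℝ E3) (σ : Equiv.Perm (Fin 4)) :
    Set.range (b.reindex σ) = Set.range b := by
  ext x
  constructor
  · rintro ⟨i, rfl⟩
    exact ⟨σ.symm i, by simp⟩
  · rintro ⟨i, rfl⟩
    exact ⟨σ i, by simp⟩

theorem outer_perm (HB : Bridge) (hK : IsConvexBody K) (b : AffineBasis (Fin 4) ℝ E3)
    {m : Fin 4 → ℝ} (hm : ∀ i, m i ≤ 1) (hs : 3 ≤ ∑ i, m i)
    (h0 : ∀ x ∈ K, ∀ i, 0 ≤ b.coord i x) (h1 : ∀ x ∈ K, ∀ i, b.coord i x ≤ m i)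
    (σ : Equiv.Perm (Fin 4)) (ho : m (σ 0) + m (σ 1) ≤ m (σ 2) + m (σ 3)) :
    volume K ≤ ENNReal.ofReal (3 / 8 * ((4 - (m (σ 2) + m (σ 3) - m (σ 0) - m (σ 1)) ^ 2) *
      (∑ i, m i - 2))) * volume (convexHull ℝ (Set.range b)) * deltaL K := by
  have hc : ∀ i x, (b.reindex σ.symm).coord i x = b.coord (σ i) x := fun i x => by
    rw [AffineBasis.coord_reindex]
    simp
  have e : ∑ i, m (σ i) = ∑ i, m i := Equiv.sum_comp σ m
  have key := outer_core HB hK (b.reindex σ.symm) (m := fun i => m (σ i)) (fun i => hm _)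
    (by rw [e]; exact hs) (fun x hx i => by rw [hc]; exact h0 x hx _)
    (fun x hx i => by rw [hc]; exact h1 x hx _) ho
  rw [range_reindex, e] at key
  exact key

/-- `.9 u (1 - x²) ≤ 1.5 (u² - x²)` for `u ≥ .704`. -/
theorem outer_arith {a c : ℝ} (ha : a ≤ 2) (hc : c ≤ 2) (hac : a ≤ c) (hs : 3408 / 1000 ≤ a + c) :
    3 / 10 * (3 / 8 * ((4 - (c - a) ^ 2) * (a + c - 2))) ≤ 3 / 2 * ((a - 1) * (c - 1)) := by
  -- `u = (a + c) / 2 - 1`, `x = (c - a) / 2`
  obtain ⟨u, hu⟩ : ∃ u, u = (a + c) / 2 - 1 := ⟨_, rfl⟩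
  obtain ⟨x, hx⟩ : ∃ x, x = (c - a) / 2 := ⟨_, rfl⟩
  have h1 : a = 1 + u - x := by linarith
  have h2 : c = 1 + u + x := by linarith
  subst h1 h2
  have hu1 : 704 / 1000 ≤ u := by linarith
  have hx0 : 0 ≤ x := by linarith
  have hx1 : x ≤ 1 - u := by linarith
  have hu2 : u ≤ 1 := by linarith
  have hx2 : x ^ 2 ≤ (1 - u) ^ 2 := by gcongr
  have h3 : 0 ≤ (3 / 2 - 9 / 10 * u) * ((1 - u) ^ 2 - x ^ 2) :=
    mul_nonneg (by linarith) (by linarith)
  have h4 : 0 ≤ 9 / 10 * u ^ 3 - 9 / 5 * u ^ 2 + 3 * u - 3 / 2 := by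
    have h5 : 0 ≤ (u - 704 / 1000) * (u - 704 / 1000) := mul_self_nonneg _
    have h6 : 0 ≤ u * ((u - 704 / 1000) * (u - 704 / 1000)) := mul_nonneg (by linarith) h5
    nlinarith
  nlinarith

end outer

/-! ## The inner regime -/

theorem of_mul_le {s : ℝ≥0∞} (hs0 : s ≠ 0) (hs1 : s ≠ ⊤) {a c : ℝ} (hc : 0 ≤ c)
    (h : ENNReal.ofReal a * s ≤ ENNReal.ofReal c * s) : a ≤ c := by
  rw [ENNReal.mul_le_mul_iff_left hs0 hs1] at h
  exact (ENNReal.ofReal_le_ofReal_iff hc).1 h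

theorem inner_of (HI : Inner) {K : Set E3} (hK : IsConvexBody K) (b : AffineBasis (Fin 4) ℝ E3)
    (hb : ∀ i, b i ∈ K) (h1 : ∀ x ∈ K, ∀ i, b.coord i x ≤ 1)
    (hV : volume K ≤ ENNReal.ofReal (3 / 2) * volume (convexHull ℝ (Set.range b))) :
    ENNReal.ofReal (3 / 10) ≤ deltaL K := by
  classical
  have hs0 : volume (convexHull ℝ (Set.range b)) ≠ 0 := (Pool.Agent.Helper95.ML.vol_pos b).ne'
  have hs1 : volume (convexHull ℝ (Set.range b)) ≠ ⊤ := (Pool.Agent.Helper95.ML.vol_lt_top b).ne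
  have htet : Pool.Agent.Helper33.CP.tet b = convexHull ℝ (Set.range b) :=
    b.convexHull_eq_nonneg_coord.symm
  have hf : volume K ≠ ⊤ := hK.isCompact.measure_lt_top.ne
  have hne : K.Nonempty := ⟨b 0, hb 0⟩
  have hcont : ∀ i, Continuous (b.coord i) := fun i => continuous_barycentric_coord b i
  have hval : ∀ i j, b.coord i (b j) = if i = j then 1 else 0 := fun i j => b.coord_apply i j
  -- the volume
  obtain ⟨x, hx⟩ : ∃ x : ℝ, x = (volume K).toReal /
      (volume (convexHull ℝ (Set.range b))).toReal - 1 := ⟨_, rfl⟩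
  have hTpos : 0 < (volume (convexHull ℝ (Set.range b))).toReal := ENNReal.toReal_pos hs0 hs1
  have hx0 : 0 ≤ 1 + x := by
    rw [hx, add_sub_cancel]
    positivity
  have hvx : volume K = ENNReal.ofReal (1 + x) * volume (convexHull ℝ (Set.range b)) := by
    rw [hx, add_sub_cancel, ENNReal.ofReal_div_of_pos hTpos, ENNReal.ofReal_toReal hf,
      ENNReal.ofReal_toReal hs1, ENNReal.div_mul_cancel hs0 hs1]
  have hx2 : x ≤ 1 / 2 := by
    rw [hvx] at hV
    have := of_mul_le hs0 hs1 (by norm_num) hV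
    linarith
  -- minima of the coordinates
  have hz : ∀ i, ∃ z ∈ K, ∀ y ∈ K, b.coord i z ≤ b.coord i y := fun i => by
    obtain ⟨z, hz, hmin⟩ := hK.isCompact.exists_isMinOn hne (hcont i).continuousOn
    exact ⟨z, hz, fun y hy => hmin hy⟩
  choose z hzK hzmin using hz
  have hZ : ∀ i j, ∃ z ∈ K, ∀ y ∈ K, -b.coord i y - b.coord j y ≤ -b.coord i z - b.coord j z :=
    fun i j => by
      obtain ⟨z, hz, hmax⟩ := hK.isCompact.exists_isMaxOn hne
        (((hcont i).neg.sub (hcont j)).continuousOn)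
      exact ⟨z, hz, fun y hy => hmax hy⟩
  choose Z hZK hZmax using hZ
  obtain ⟨w, hw⟩ : ∃ w : Fin 4 → Fin 4 → E3, w = fun i j => if i ≤ j then Z i j else Z j i :=
    ⟨_, rfl⟩
  have hwK : ∀ i j, w i j ∈ K := fun i j => by
    rw [hw]
    dsimp only
    split_ifs
    · exact hZK _ _
    · exact hZK _ _
  have hws : ∀ i j, w i j = w j i := fun i j => by
    rw [hw]
    dsimp only
    by_cases h : i ≤ j
    · by_cases h' : j ≤ i
      · rw [if_pos h, if_pos h', le_antisymm h h']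
      · rw [if_pos h, if_neg h']
    · rw [if_neg h, if_pos (le_of_not_ge h)]
  have hwmax : ∀ i j, ∀ y ∈ K, -b.coord i y - b.coord j y ≤
      -b.coord i (w i j) - b.coord j (w i j) := fun i j y hy => by
    rw [hw]
    dsimp only
    split_ifs
    · exact hZmax _ _ y hy
    · have := hZmax j i y hy
      linarith
  -- sigma
  have hβ : ∀ i, 0 ≤ -b.coord i (z i) := fun i => by
    have h := hzmin i (b (i + 1)) (hb _)
    rw [hval, if_neg (by fin_cases i <;> decide)] at h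
    linarith
  have hsig := Pool.Agent.Helper33.CP.vol_sigma b hK.convex hb z hzK hzmin
  rw [htet, hvx] at hsig
  have hσ : ∑ i, -b.coord i (z i) ≤ x := by
    have := of_mul_le hs0 hs1 hx0 hsig
    rw [Finset.sum_neg_distrib]
    linarith
  have hge : ∀ y ∈ K, ∀ i, -(1 / 2) ≤ b.coord i y := fun y hy i => by
    have h := Finset.single_le_sum (f := fun i => -b.coord i (z i)) (fun i _ => hβ i)
      (Finset.mem_univ i)
    have h' := hzmin i y hy
    linarith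
  -- edges
  have hd0 : ∀ i j, i ≠ j → 0 ≤ -b.coord i (w i j) - b.coord j (w i j) := fun i j _ => by
    obtain ⟨k, hk1, hk2⟩ : ∃ k : Fin 4, i ≠ k ∧ j ≠ k := by
      revert i j
      decide
    have h := hwmax i j (b k) (hb k)
    rw [hval, hval, if_neg hk1, if_neg hk2] at h
    linarith
  have hcaps := Pool.Agent.Helper33.CP.vol_caps b hK.convex hb h1 hge w hwK hws
    (fun i j => -b.coord i (w i j) - b.coord j (w i j)) hd0 (fun i j _ => rfl)
  rw [htet, hvx] at hcaps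
  have hE := of_mul_le hs0 hs1 hx0 hcaps
  have key := HI hK b hx2 hβ hσ (d := fun i j => -b.coord i (w i j) - b.coord j (w i j))
    (fun i j => by
      rw [hws i j]
      ring) hd0 (by linarith) h1 (fun y hy i => by
      have := hzmin i y hy
      linarith) (fun y hy i j _ => hwmax i j y hy)
  have hxpos : 0 < 1 + x := by
    have := Finset.sum_nonneg fun i (_ : i ∈ Finset.univ) => hβ i
    linarith
  exact glue hs0 hs1 (a := 10 / 3 * (1 + x)) (b := 1 + x) (by positivity) (by linarith) key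
    hvx.ge

/-! ## The theorem -/

open Pool.Agent.Helper62.MT (Small) in
theorem exists_perm (m : Fin 4 → ℝ) : ∃ σ : Equiv.Perm (Fin 4),
    m (σ 0) + m (σ 1) ≤ m (σ 2) + m (σ 3) ∧
      Small ((m (σ 0) + m (σ 1) - 1) * (m (σ 2) + m (σ 3) - 1)) m := by
  have main : ∀ σ : Equiv.Perm (Fin 4),
      Small ((m (σ 0) + m (σ 1) - 1) * (m (σ 2) + m (σ 3) - 1)) m →
      ∃ σ : Equiv.Perm (Fin 4), m (σ 0) + m (σ 1) ≤ m (σ 2) + m (σ 3) ∧
        Small ((m (σ 0) + m (σ 1) - 1) * (m (σ 2) + m (σ 3) - 1)) m := by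
    intro σ h
    rcases le_total (m (σ 0) + m (σ 1)) (m (σ 2) + m (σ 3)) with h1 | h1
    · exact ⟨σ, h1, h⟩
    · refine ⟨(Equiv.swap 0 2 * Equiv.swap 1 3 : Equiv.Perm (Fin 4)).trans σ, ?_, ?_⟩
      · simpa [Equiv.swap_apply_of_ne_of_ne] using h1
      · have e : ((m (σ 2) + m (σ 3) - 1) * (m (σ 0) + m (σ 1) - 1)) =
          (m (σ 0) + m (σ 1) - 1) * (m (σ 2) + m (σ 3) - 1) := by ring
        simpa [Equiv.swap_apply_of_ne_of_ne, e] using h
  by_cases h1 : (m 0 + m 1 - 1) * (m 2 + m 3 - 1) ≤ (m 0 + m 2 - 1) * (m 1 + m 3 - 1)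
  · by_cases h2 : (m 0 + m 1 - 1) * (m 2 + m 3 - 1) ≤ (m 0 + m 3 - 1) * (m 1 + m 2 - 1)
    · exact main 1 ⟨le_rfl, h1, h2⟩
    · push Not at h2
      refine main (Equiv.swap 1 3) ?_
      simp only [Equiv.swap_apply_left, Equiv.swap_apply_right]
      rw [Equiv.swap_apply_of_ne_of_ne (by decide) (by decide),
        Equiv.swap_apply_of_ne_of_ne (by decide) (by decide)]
      exact ⟨by linarith, by linarith, by linarith⟩
  · push Not at h1
    by_cases h2 : (m 0 + m 2 - 1) * (m 1 + m 3 - 1) ≤ (m 0 + m 3 - 1) * (m 1 + m 2 - 1)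
    · refine main (Equiv.swap 1 2) ?_
      simp only [Equiv.swap_apply_left, Equiv.swap_apply_right]
      rw [Equiv.swap_apply_of_ne_of_ne (by decide) (by decide),
        Equiv.swap_apply_of_ne_of_ne (by decide) (by decide)]
      exact ⟨by linarith, by linarith, by linarith⟩
    · push Not at h2
      refine main (Equiv.swap 1 3) ?_
      simp only [Equiv.swap_apply_left, Equiv.swap_apply_right]
      rw [Equiv.swap_apply_of_ne_of_ne (by decide) (by decide),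
        Equiv.swap_apply_of_ne_of_ne (by decide) (by decide)]
      exact ⟨by linarith, by linarith, by linarith⟩

theorem ten3_of (HB : Bridge) (HI : Inner) {K : Set E3} (hK : IsConvexBody K) :
    ENNReal.ofReal (3 / 10) ≤ deltaL K := by
  by_cases hs : ∃ x, ∀ y ∈ K, x - y ∈ (301 / 125 : ℝ) • K
  · obtain ⟨x, hx⟩ := hs
    exact caseA hK hx
  obtain ⟨b, p, hp, hb, hb1, hsum, hvol⟩ :=
    Pool.Agent.Helper62.MT.frame hK (s := 301 / 125) (by norm_num) hs
  obtain ⟨T, hT, hT1, hTmax⟩ := Pool.Agent.Helper95.ML.exists_max hK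
  obtain ⟨m, hm⟩ : ∃ m : Fin 4 → ℝ, m = fun i => b.coord i (p i) := ⟨_, rfl⟩
  have hmi : ∀ i, b.coord i (p i) = m i := fun i => by rw [hm]
  simp only [hmi] at hb hb1 hsum hvol
  have hs0 : volume (convexHull ℝ (Set.range b)) ≠ 0 := (Pool.Agent.Helper95.ML.vol_pos b).ne'
  have hs1 : volume (convexHull ℝ (Set.range b)) ≠ ⊤ := (Pool.Agent.Helper95.ML.vol_lt_top b).ne
  obtain ⟨σ, ho, hmin⟩ := exists_perm m
  have hsσ : m (σ 0) + m (σ 1) + m (σ 2) + m (σ 3) = ∑ i, m i := by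
    rw [← Equiv.sum_comp σ m, Fin.sum_univ_four]
  have h3 : 3408 / 1000 < ∑ i, m i := by
    norm_num at hsum ⊢
    linarith
  have key := outer_perm HB hK b hb1 (by linarith) (fun x hx i => (hb i x hx).1)
    (fun x hx i => (hb i x hx).2) σ ho
  have e1 := hb1 (σ 0)
  have e2 := hb1 (σ 1)
  have e3 := hb1 (σ 2)
  have e4 := hb1 (σ 3)
  have harith := outer_arith (a := m (σ 0) + m (σ 1)) (c := m (σ 2) + m (σ 3)) (by linarith)
    (by linarith) ho (by linarith)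
  rw [show m (σ 2) + m (σ 3) - (m (σ 0) + m (σ 1)) = m (σ 2) + m (σ 3) - m (σ 0) - m (σ 1) by ring,
    show m (σ 0) + m (σ 1) + (m (σ 2) + m (σ 3)) - 2 = ∑ i, m i - 2 by rw [← hsσ]; ring] at harith
  have hD : 0 < 3 / 8 * ((4 - (m (σ 2) + m (σ 3) - m (σ 0) - m (σ 1)) ^ 2) *
      (∑ i, m i - 2)) := by
    have : 0 < 4 - (m (σ 2) + m (σ 3) - m (σ 0) - m (σ 1)) ^ 2 := by nlinarith
    have : 0 < ∑ i, m i - 2 := by linarith
    positivity
  by_cases hV : ENNReal.ofReal (3 / 10 * (3 / 8 * ((4 - (m (σ 2) + m (σ 3) - m (σ 0) -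
      m (σ 1)) ^ 2) * (∑ i, m i - 2)))) * volume (convexHull ℝ (Set.range b)) ≤ volume K
  · exact glue hs0 hs1 hD le_rfl key hV
  push Not at hV
  refine inner_of HI hK T hT (fun x hx i => (abs_le.1 (hT1 x hx i)).2) ?_
  calc volume K ≤ _ := hV.le
    _ ≤ ENNReal.ofReal (3 / 2 * ((m (σ 0) + m (σ 1) - 1) * (m (σ 2) + m (σ 3) - 1))) *
        volume (convexHull ℝ (Set.range b)) := by gcongr
    _ = ENNReal.ofReal (3 / 2) * (ENNReal.ofReal ((m (σ 0) + m (σ 1) - 1) *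
        (m (σ 2) + m (σ 3) - 1)) * volume (convexHull ℝ (Set.range b))) := by
      rw [ENNReal.ofReal_mul (by norm_num), mul_assoc]
    _ ≤ ENNReal.ofReal (3 / 2) * volume (convexHull ℝ (Set.range T)) := by
      gcongr
      exact (hvol _ hmin).trans (hTmax p hp)

end Pool.Agent.Helper47.ML3
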